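import Mathlib

/-!
Quadratic extensions of Hopf algebras in characteristic two: adjoining a primitive element `z`
with `z * z = e z` and `z b = b z + δ b`.
-/

set_option autoImplicit false

namespace Pool.Agent.H11.QExt

open TensorProduct Coalgebra

universe u

/-- Data for adjoining a primitive element to a commutative Hopf algebra `B`. -/
structure QD (k : Type u) [Field k] (B : Type u) [CommRing B] [HopfAlgebra k B] where
  δ : B →ₗ[k] B
  e : k
  leib : ∀ a b, δ (a * b) = δ a * b + a * δ b
  sq : ∀ a, δ (δ a) = algebraMap k B e * δ a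
  coder : ∀ a, comul (R := k) (δ a) = (LinearMap.rTensor B δ + LinearMap.lTensor B δ) (comul a)
  cou : ∀ a, counit (R := k) (δ a) = 0
  two : (2 : B) = 0

/-- The underlying type of the extension. -/
def Ext {k : Type u} [Field k] {B : Type u} [CommRing B] [HopfAlgebra k B] (_D : QD k B) :
    Type u := B × B

variable {k : Type u} [Field k] {B : Type u} [CommRing B] [HopfAlgebra k B] (D : QD k B)

namespace Ext

instance : AddCommGroup (Ext D) := inferInstanceAs (AddCommGroup (B × B))
instance : Module k (Ext D) := inferInstanceAs (Module k (B × B))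

variable {D}

/-- first coordinate -/
def fst (x : Ext D) : B := Prod.fst x
/-- second coordinate -/
def snd (x : Ext D) : B := Prod.snd x
/-- constructor -/
def mk (a b : B) : Ext D := (a, b)

@[simp] lemma fst_mk (a b : B) : (mk a b : Ext D).fst = a := rfl
@[simp] lemma snd_mk (a b : B) : (mk a b : Ext D).snd = b := rfl
@[ext] lemma ext {x y : Ext D} (h1 : x.fst = y.fst) (h2 : x.snd = y.snd) : x = y :=
  Prod.ext h1 h2
@[simp] lemma mk_eta (x : Ext D) : mk x.fst x.snd = x := rfl

@[simp] lemma fst_add (x y : Ext D) : (x + y).fst = x.fst + y.fst := rfl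
@[simp] lemma snd_add (x y : Ext D) : (x + y).snd = x.snd + y.snd := rfl
@[simp] lemma fst_sub (x y : Ext D) : (x - y).fst = x.fst - y.fst := rfl
@[simp] lemma snd_sub (x y : Ext D) : (x - y).snd = x.snd - y.snd := rfl
@[simp] lemma fst_zero : (0 : Ext D).fst = 0 := rfl
@[simp] lemma snd_zero : (0 : Ext D).snd = 0 := rfl
@[simp] lemma fst_neg (x : Ext D) : (-x).fst = -x.fst := rfl
@[simp] lemma snd_neg (x : Ext D) : (-x).snd = -x.snd := rfl
@[simp] lemma fst_smul (c : k) (x : Ext D) : (c • x).fst = c • x.fst := rfl
@[simp] lemma snd_smul (c : k) (x : Ext D) : (c • x).snd = c • x.snd := rfl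

lemma δ_one (D : QD k B) : D.δ 1 = 0 := by
  have h := D.leib 1 1
  simp only [mul_one, one_mul] at h
  have := congrArg (fun t => t - D.δ 1) h
  simpa using this.symm

lemma δ_algebraMap (D : QD k B) (c : k) : D.δ (algebraMap k B c) = 0 := by
  rw [Algebra.algebraMap_eq_smul_one, map_smul, δ_one, smul_zero]

lemma δ_algebraMap_mul (D : QD k B) (c : k) (b : B) :
    D.δ (algebraMap k B c * b) = algebraMap k B c * D.δ b := by
  rw [D.leib, δ_algebraMap, zero_mul, zero_add]

section aux

/-- multiplication, implementation -/
def mulAux : Mul (Ext D) := ⟨fun x y => mk (x.fst * y.fst + x.snd * D.δ y.fst)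
  (x.fst * y.snd + x.snd * y.fst + algebraMap k B D.e * x.snd * y.snd + x.snd * D.δ y.snd)⟩
/-- one, implementation -/
def oneAux : One (Ext D) := ⟨mk 1 0⟩

attribute [local instance] mulAux oneAux

lemma fst_one_aux : (1 : Ext D).fst = 1 := rfl
lemma snd_one_aux : (1 : Ext D).snd = 0 := rfl
lemma fst_mul_aux (x y : Ext D) : (x * y).fst = x.fst * y.fst + x.snd * D.δ y.fst := rfl
lemma snd_mul_aux (x y : Ext D) : (x * y).snd = x.fst * y.snd + x.snd * y.fst +
    algebraMap k B D.e * x.snd * y.snd + x.snd * D.δ y.snd := rfl

instance instRing : Ring (Ext D) :=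
  { (inferInstance : AddCommGroup (Ext D)) with
    mul := (· * ·)
    one := 1
    left_distrib := by
      intro a b c
      ext <;> simp [fst_mul_aux, snd_mul_aux] <;> ring
    right_distrib := by
      intro a b c
      ext <;> simp [fst_mul_aux, snd_mul_aux] <;> ring
    zero_mul := by intro a; ext <;> simp [fst_mul_aux, snd_mul_aux]
    mul_zero := by intro a; ext <;> simp [fst_mul_aux, snd_mul_aux]
    mul_assoc := by
      intro a b c
      ext
      · simp only [fst_mul_aux, snd_mul_aux, map_add, D.leib, D.sq]
        ring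
      · simp only [fst_mul_aux, snd_mul_aux, map_add, D.leib, D.sq, δ_algebraMap]
        have h2 := D.two
        linear_combination (-(a.snd * b.snd * D.δ c.fst) -
          algebraMap k B D.e * a.snd * b.snd * D.δ c.snd
          ) * h2
    one_mul := by
      intro a
      ext <;> simp [fst_mul_aux, snd_mul_aux, fst_one_aux, snd_one_aux]
    mul_one := by
      intro a
      ext <;> simp [fst_mul_aux, snd_mul_aux, fst_one_aux, snd_one_aux, δ_one] }

end aux

@[simp] lemma fst_one : (1 : Ext D).fst = 1 := rfl
@[simp] lemma snd_one : (1 : Ext D).snd = 0 := rfl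
@[simp] lemma fst_mul (x y : Ext D) : (x * y).fst = x.fst * y.fst + x.snd * D.δ y.fst := rfl
@[simp] lemma snd_mul (x y : Ext D) : (x * y).snd = x.fst * y.snd + x.snd * y.fst +
    algebraMap k B D.e * x.snd * y.snd + x.snd * D.δ y.snd := rfl

instance : Algebra k (Ext D) := Algebra.ofModule
  (by intro r x y; ext <;> simp <;> ring)
  (by
    intro r x y
    ext
    · simp only [fst_mul, fst_smul, snd_smul, map_smul, smul_add, mul_smul_comm]
    · simp only [snd_mul, fst_smul, snd_smul, map_smul, smul_add, mul_smul_comm])

/-- inclusion of the base -/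
def inl (D : QD k B) : B →ₐ[k] Ext D :=
  AlgHom.ofLinearMap
    { toFun := fun b => mk b 0
      map_add' := by intro x y; ext <;> simp
      map_smul' := by intro c x; ext <;> simp }
    (by ext <;> simp)
    (by intro x y; ext <;> simp)

/-- the new generator -/
def z (D : QD k B) : Ext D := mk 0 1

@[simp] lemma fst_inl (b : B) : (inl D b).fst = b := rfl
@[simp] lemma snd_inl (b : B) : (inl D b).snd = 0 := rfl
@[simp] lemma fst_z : (z D).fst = 0 := rfl
@[simp] lemma snd_z : (z D).snd = 1 := rfl

lemma eq_inl_add (x : Ext D) : x = inl D x.fst + inl D x.snd * z D := by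
  ext <;> simp [δ_one]

lemma z_mul_z : z D * z D = D.e • z D := by
  ext
  · simp [δ_one]
  · simp [δ_one, Algebra.algebraMap_eq_smul_one]

lemma z_mul_inl (b : B) : z D * inl D b = inl D b * z D + inl D (D.δ b) := by
  ext <;> simp [δ_one]

/-- The universal property. -/
def lift (D : QD k B) {C : Type u} [Ring C] [Algebra k C] (f : B →ₐ[k] C) (w : C)
    (hw : w * w = D.e • w) (hc : ∀ b, w * f b = f b * w + f (D.δ b)) : Ext D →ₐ[k] C :=
  AlgHom.ofLinearMap
    { toFun := fun x => f x.fst + f x.snd * w
      map_add' := by intro x y; simp only [fst_add, snd_add, map_add, add_mul]; abel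
      map_smul' := by intro c x; simp [smul_add] }
    (by simp)
    (by
      intro x y
      simp only [LinearMap.coe_mk, AddHom.coe_mk, fst_mul, snd_mul, map_add, map_mul, add_mul,
        mul_add, AlgHom.commutes]
      have h1 : f x.snd * w * f y.fst = f x.snd * f y.fst * w + f x.snd * f (D.δ y.fst) := by
        rw [mul_assoc, hc, mul_add, ← mul_assoc]
      have h2 : f x.snd * w * (f y.snd * w) =
          algebraMap k C D.e * f x.snd * f y.snd * w + f x.snd * f (D.δ y.snd) * w := by
        calc f x.snd * w * (f y.snd * w) = f x.snd * (w * f y.snd) * w := by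
              simp only [mul_assoc]
          _ = f x.snd * f y.snd * (w * w) + f x.snd * f (D.δ y.snd) * w := by
              rw [hc]; simp only [mul_add, add_mul, mul_assoc]
          _ = _ := by
              rw [hw, mul_smul_comm, Algebra.smul_def]
              simp only [mul_assoc]
      rw [h1, h2]
      simp only [mul_assoc]
      abel)

@[simp] lemma lift_inl {C : Type u} [Ring C] [Algebra k C] (f : B →ₐ[k] C) (w : C)
    (hw : w * w = D.e • w) (hc : ∀ b, w * f b = f b * w + f (D.δ b)) (b : B) :
    lift D f w hw hc (inl D b) = f b := by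
  simp [lift]

@[simp] lemma lift_z {C : Type u} [Ring C] [Algebra k C] (f : B →ₐ[k] C) (w : C)
    (hw : w * w = D.e • w) (hc : ∀ b, w * f b = f b * w + f (D.δ b)) :
    lift D f w hw hc (z D) = w := by
  simp [lift]

lemma lift_apply {C : Type u} [Ring C] [Algebra k C] (f : B →ₐ[k] C) (w : C)
    (hw : w * w = D.e • w) (hc : ∀ b, w * f b = f b * w + f (D.δ b)) (x : Ext D) :
    lift D f w hw hc x = f x.fst + f x.snd * w := rfl

lemma algHom_ext {C : Type u} [Ring C] [Algebra k C] {f g : Ext D →ₐ[k] C}
    (h1 : f.comp (inl D) = g.comp (inl D)) (h2 : f (z D) = g (z D)) : f = g := by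
  apply AlgHom.ext
  intro x
  rw [eq_inl_add x, map_add, map_add, map_mul, map_mul, h2]
  have h3 : ∀ b, f (inl D b) = g (inl D b) := fun b => AlgHom.congr_fun h1 b
  rw [h3, h3]

lemma add_self (x : Ext D) : x + x = 0 := by
  have h : ∀ b : B, b + b = 0 := fun b => by
    have h2 := D.two
    linear_combination b * h2
  ext
  · simpa using h x.fst
  · simpa using h x.snd

lemma add_self_tmul (t : Ext D ⊗[k] Ext D) : t + t = 0 := by
  induction t with
  | zero => simp
  | tmul x y => rw [← TensorProduct.add_tmul, add_self, TensorProduct.zero_tmul]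
  | add x y hx hy =>
    calc x + y + (x + y) = (x + x) + (y + y) := by abel
      _ = 0 := by rw [hx, hy, add_zero]

/-- `inl ⊗ inl`. -/
noncomputable def inl2 (D : QD k B) : B ⊗[k] B →ₐ[k] Ext D ⊗[k] Ext D :=
  Algebra.TensorProduct.map (inl D) (inl D)

@[simp] lemma inl2_tmul (a b : B) : inl2 D (a ⊗ₜ b) = inl D a ⊗ₜ inl D b := rfl

/-- the primitive tensor of `z` -/
noncomputable def zz (D : QD k B) : Ext D ⊗[k] Ext D := z D ⊗ₜ[k] 1 + 1 ⊗ₜ[k] z D

lemma zz_mul_zz : zz D * zz D = D.e • zz D := by
  have h := add_self_tmul (z D ⊗ₜ[k] z D)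
  simp only [zz, mul_add, add_mul, Algebra.TensorProduct.tmul_mul_tmul, mul_one, one_mul,
    z_mul_z, smul_add, TensorProduct.smul_tmul', TensorProduct.tmul_smul]
  calc _ = D.e • z D ⊗ₜ[k] (1 : Ext D) + D.e • ((1 : Ext D) ⊗ₜ[k] z D)
        + (z D ⊗ₜ[k] z D + z D ⊗ₜ[k] z D) := by
          simp only [TensorProduct.smul_tmul']; abel
    _ = _ := by rw [h, add_zero]; simp only [TensorProduct.smul_tmul']

lemma zz_mul_inl2 (t : B ⊗[k] B) : zz D * inl2 D t = inl2 D t * zz D +
    inl2 D ((LinearMap.rTensor B D.δ + LinearMap.lTensor B D.δ) t) := by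
  induction t with
  | zero => simp
  | tmul a b =>
    simp only [zz, inl2_tmul, mul_add, add_mul, Algebra.TensorProduct.tmul_mul_tmul, mul_one,
      one_mul, z_mul_inl, TensorProduct.add_tmul, TensorProduct.tmul_add, LinearMap.add_apply,
      LinearMap.rTensor_tmul, LinearMap.lTensor_tmul, map_add]
    abel
  | add x y hx hy =>
    simp only [map_add, mul_add, add_mul, hx, hy]
    abel

/-- comultiplication -/
noncomputable def comulHom (D : QD k B) : Ext D →ₐ[k] Ext D ⊗[k] Ext D :=
  lift D ((inl2 D).comp (Bialgebra.comulAlgHom k B)) (zz D) zz_mul_zz (by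
    intro b
    simp only [AlgHom.comp_apply, Bialgebra.comulAlgHom_apply]
    rw [zz_mul_inl2, D.coder])

/-- counit -/
noncomputable def counitHom (D : QD k B) : Ext D →ₐ[k] k :=
  lift D (Bialgebra.counitAlgHom k B) 0 (by simp) (by
    intro b
    simp [D.cou])

@[simp] lemma comulHom_inl (b : B) : comulHom D (inl D b) = inl2 D (comul b) := by
  simp [comulHom]
@[simp] lemma comulHom_z : comulHom D (z D) = zz D := by
  simp [comulHom]
@[simp] lemma counitHom_inl (b : B) : counitHom D (inl D b) = counit (R := k) b := by
  simp [counitHom]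
@[simp] lemma counitHom_z : counitHom D (z D) = 0 := by
  simp [counitHom]

noncomputable instance : Bialgebra k (Ext D) := Bialgebra.ofAlgHom (comulHom D) (counitHom D)
  (by
    apply algHom_ext
    · apply AlgHom.ext
      intro b
      have h := Coalgebra.coassoc_apply (R := k) b
      have h1 : ∀ t : B ⊗[k] B, (Algebra.TensorProduct.map (comulHom D) (AlgHom.id k (Ext D)))
          (inl2 D t) = Algebra.TensorProduct.map (inl2 D) (inl D)
            (Algebra.TensorProduct.map (Bialgebra.comulAlgHom k B) (AlgHom.id k B) t) := by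
        intro t
        induction t with
        | zero => simp
        | tmul a b => simp
        | add x y hx hy => simp only [map_add, hx, hy]
      have h2 : ∀ t : B ⊗[k] B, (Algebra.TensorProduct.map (AlgHom.id k (Ext D)) (comulHom D))
          (inl2 D t) = Algebra.TensorProduct.map (inl D) (inl2 D)
            (Algebra.TensorProduct.map (AlgHom.id k B) (Bialgebra.comulAlgHom k B) t) := by
        intro t
        induction t with
        | zero => simp
        | tmul a b => simp
        | add x y hx hy => simp only [map_add, hx, hy]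
      have h3 : ∀ t : (B ⊗[k] B) ⊗[k] B,
          (Algebra.TensorProduct.assoc k k k (Ext D) (Ext D) (Ext D))
            (Algebra.TensorProduct.map (inl2 D) (inl D) t) =
          Algebra.TensorProduct.map (inl D) (inl2 D)
            (Algebra.TensorProduct.assoc k k k B B B t) := by
        intro t
        induction t with
        | zero => simp
        | tmul u c =>
          induction u with
          | zero => simp
          | tmul a b => simp
          | add x y hx hy => simp only [TensorProduct.add_tmul, map_add, hx, hy]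
        | add x y hx hy => simp only [map_add, hx, hy]
      simp only [AlgHom.comp_apply, comulHom_inl]
      change (Algebra.TensorProduct.assoc k k k (Ext D) (Ext D) (Ext D))
        (Algebra.TensorProduct.map (comulHom D) (AlgHom.id k (Ext D)) (inl2 D (comul b))) = _
      rw [h1, h2, h3]
      congr 1
    · simp only [AlgHom.comp_apply, comulHom_z, zz, map_add,
        Algebra.TensorProduct.map_tmul, map_one, AlgHom.coe_id, id_eq]
      simp only [TensorProduct.add_tmul, TensorProduct.tmul_add, map_add,
        Algebra.TensorProduct.one_def]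
      have h4 : ∀ a b c : Ext D, ((Algebra.TensorProduct.assoc k k k (Ext D) (Ext D)
          (Ext D)).toAlgHom : _ →ₐ[k] _) ((a ⊗ₜ[k] b) ⊗ₜ[k] c) = a ⊗ₜ[k] (b ⊗ₜ[k] c) :=
        fun a b c => rfl
      rw [h4, h4, h4]
      abel)
  (by
    apply algHom_ext
    · apply AlgHom.ext
      intro b
      have h1 : ∀ t : B ⊗[k] B, (Algebra.TensorProduct.map (counitHom D) (AlgHom.id k (Ext D)))
          (inl2 D t) = Algebra.TensorProduct.map (AlgHom.id k k) (inl D)
            ((LinearMap.rTensor B (counit (R := k))) t) := by
        intro t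
        induction t with
        | zero => simp
        | tmul a b => simp
        | add x y hx hy => simp only [map_add, hx, hy]
      simp only [AlgHom.comp_apply, comulHom_inl, h1, Coalgebra.rTensor_counit_comul]
      simp
    · simp only [AlgHom.comp_apply, comulHom_z, zz, map_add,
        Algebra.TensorProduct.map_tmul, map_one, AlgHom.coe_id, id_eq, counitHom_z]
      simp)
  (by
    apply algHom_ext
    · apply AlgHom.ext
      intro b
      have h1 : ∀ t : B ⊗[k] B, (Algebra.TensorProduct.map (AlgHom.id k (Ext D)) (counitHom D))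
          (inl2 D t) = Algebra.TensorProduct.map (inl D) (AlgHom.id k k)
            ((LinearMap.lTensor B (counit (R := k))) t) := by
        intro t
        induction t with
        | zero => simp
        | tmul a b => simp
        | add x y hx hy => simp only [map_add, hx, hy]
      simp only [AlgHom.comp_apply, comulHom_inl, h1, Coalgebra.lTensor_counit_comul]
      simp
    · simp only [AlgHom.comp_apply, comulHom_z, zz, map_add,
        Algebra.TensorProduct.map_tmul, map_one, AlgHom.coe_id, id_eq, counitHom_z]
      simp)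

lemma comul_eq (x : Ext D) : comul (R := k) x = comulHom D x := rfl
lemma counit_eq (x : Ext D) : counit (R := k) x = counitHom D x := rfl

/-- antipode -/
noncomputable def anti (D : QD k B) : Ext D →ₗ[k] Ext D where
  toFun := fun x => inl D (HopfAlgebra.antipode k x.fst) +
    z D * inl D (HopfAlgebra.antipode k x.snd)
  map_add' := by intro x y; simp only [fst_add, snd_add, map_add, mul_add]; abel
  map_smul' := by intro c x; simp [smul_add]

@[simp] lemma anti_inl (b : B) : anti D (inl D b) = inl D (HopfAlgebra.antipode k b) := by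
  simp [anti]

@[simp] lemma anti_inl_mul_z (b : B) : anti D (inl D b * z D) =
    z D * inl D (HopfAlgebra.antipode k b) := by
  have h : inl D b * z D = mk 0 b := by ext <;> simp [δ_one]
  rw [h]
  simp [anti]

noncomputable instance : HopfAlgebra k (Ext D) where
  antipode := anti D
  mul_antipode_rTensor_comul := by
    apply LinearMap.ext
    intro x
    rw [eq_inl_add x]
    simp only [map_add]
    have h1 : ∀ t : B ⊗[k] B, LinearMap.mul' k (Ext D) ((anti D).rTensor (Ext D) (inl2 D t)) =
        inl D (LinearMap.mul' k B ((HopfAlgebra.antipode k).rTensor B t)) := by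
      intro t
      induction t with
      | zero => simp
      | tmul a b => simp
      | add x y hx hy => simp only [map_add, hx, hy]
    have h2 : ∀ t : B ⊗[k] B, LinearMap.mul' k (Ext D) ((anti D).rTensor (Ext D)
        (inl2 D t * zz D)) = z D * inl D (LinearMap.mul' k B
          ((HopfAlgebra.antipode k).rTensor B t)) +
          inl D (LinearMap.mul' k B ((HopfAlgebra.antipode k).rTensor B t)) * z D := by
      intro t
      induction t with
      | zero => simp
      | tmul a b => simp [zz, mul_add, mul_assoc]
      | add x y hx hy =>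
        simp only [add_mul, map_add, hx, hy, mul_add]
        abel
    have h3 : ∀ b : B, LinearMap.mul' k B ((HopfAlgebra.antipode k).rTensor B (comul b)) =
        algebraMap k B (counit (R := k) b) := fun b => by simp
    simp only [LinearMap.comp_apply, comul_eq, map_mul, comulHom_inl, comulHom_z, h1, h2, h3,
      counit_eq, counitHom_inl, counitHom_z]
    have h4 : z D * inl D (algebraMap k B (counit (R := k) x.snd)) +
        inl D (algebraMap k B (counit (R := k) x.snd)) * z D = 0 := by
      rw [z_mul_inl, δ_algebraMap, map_zero, add_zero, add_self]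
    rw [h4]
    simp
  mul_antipode_lTensor_comul := by
    apply LinearMap.ext
    intro x
    rw [eq_inl_add x]
    simp only [map_add]
    have h1 : ∀ t : B ⊗[k] B, LinearMap.mul' k (Ext D) ((anti D).lTensor (Ext D) (inl2 D t)) =
        inl D (LinearMap.mul' k B ((HopfAlgebra.antipode k).lTensor B t)) := by
      intro t
      induction t with
      | zero => simp
      | tmul a b => simp
      | add x y hx hy => simp only [map_add, hx, hy]
    have h2 : ∀ t : B ⊗[k] B, LinearMap.mul' k (Ext D) ((anti D).lTensor (Ext D)
        (inl2 D t * zz D)) = 0 := by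
      intro t
      induction t with
      | zero => simp
      | tmul a b =>
        simp only [zz, mul_add, inl2_tmul, Algebra.TensorProduct.tmul_mul_tmul, mul_one, map_add,
          LinearMap.lTensor_tmul, LinearMap.mul'_apply, anti_inl, anti_inl_mul_z]
        rw [mul_assoc, add_self]
      | add x y hx hy => simp only [add_mul, map_add, hx, hy, add_zero]
    have h3 : ∀ b : B, LinearMap.mul' k B ((HopfAlgebra.antipode k).lTensor B (comul b)) =
        algebraMap k B (counit (R := k) b) := fun b => by simp
    simp only [LinearMap.comp_apply, comul_eq, map_mul, comulHom_inl, comulHom_z, h1, h2, h3,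
      counit_eq, counitHom_inl, counitHom_z]
    simp

instance [Module.Finite k B] : Module.Finite k (Ext D) :=
  inferInstanceAs (Module.Finite k (B × B))

lemma finrank_ext [Module.Finite k B] : Module.finrank k (Ext D) = 2 * Module.finrank k B := by
  have h : Module.finrank k (Ext D) = Module.finrank k (B × B) := rfl
  rw [h, Module.finrank_prod]
  ring

lemma inl_mul_mk (a b c : B) : inl D a * mk b c = mk (a * b) (a * c) := by
  ext <;> simp

lemma two_eq_zero : (2 : Ext D) = 0 := by
  rw [← one_add_one_eq_two]; exact add_self 1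

/-- Primitive elements of the extension. -/
lemma prim_ext {x : Ext D} (hx : comul (R := k) x = x ⊗ₜ 1 + 1 ⊗ₜ x) :
    comul (R := k) x.fst = x.fst ⊗ₜ 1 + 1 ⊗ₜ x.fst ∧
      x.snd = algebraMap k B (counit (R := k) x.snd) := by
  let F : Ext D →ₗ[k] B := LinearMap.fst k B B
  let S : Ext D →ₗ[k] B := LinearMap.snd k B B
  have hF : ∀ y, F y = y.fst := fun _ => rfl
  have hS : ∀ y, S y = y.snd := fun _ => rfl
  have h1 : ∀ t : B ⊗[k] B, TensorProduct.map F F (inl2 D t) = t := by
    intro t
    induction t with
    | zero => simp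
    | tmul a b => simp [hF]
    | add x y hx hy => simp only [map_add, hx, hy]
  have h2 : ∀ t : B ⊗[k] B, TensorProduct.map F F (inl2 D t * zz D) = 0 := by
    intro t
    induction t with
    | zero => simp
    | tmul a b => simp [hF, zz, mul_add]
    | add x y hx hy => simp only [map_add, add_mul, hx, hy, add_zero]
  have h3 : ∀ t : B ⊗[k] B, TensorProduct.map S F (inl2 D t) = 0 := by
    intro t
    induction t with
    | zero => simp
    | tmul a b => simp [hF, hS]
    | add x y hx hy => simp only [map_add, hx, hy, add_zero]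
  have h4 : ∀ t : B ⊗[k] B, TensorProduct.map S F (inl2 D t * zz D) = t := by
    intro t
    induction t with
    | zero => simp
    | tmul a b => simp [hF, hS, zz, mul_add, δ_one]
    | add x y hx hy => simp only [map_add, add_mul, hx, hy]
  have h5 : comul (R := k) x = inl2 D (comul x.fst) + inl2 D (comul x.snd) * zz D := by
    conv_lhs => rw [eq_inl_add x]
    rw [comul_eq, map_add, map_mul, comulHom_inl, comulHom_inl, comulHom_z]
  constructor
  · have := congrArg (TensorProduct.map F F) (h5.symm.trans hx)
    rw [map_add, h1, h2, add_zero] at this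
    rw [this]
    simp [hF]
  · have h6 := congrArg (TensorProduct.map S F) (h5.symm.trans hx)
    rw [map_add, h3, h4, zero_add] at h6
    simp only [map_add, TensorProduct.map_tmul, hF, hS, fst_one, snd_one,
      TensorProduct.zero_tmul, add_zero] at h6
    have h7 := congrArg (fun t => TensorProduct.lid k B (LinearMap.rTensor B
      (counit (R := k)) t)) h6
    simp only [Coalgebra.rTensor_counit_comul, TensorProduct.lid_tmul, one_smul,
      LinearMap.rTensor_tmul] at h7
    rw [h7]
    simp [Algebra.algebraMap_eq_smul_one]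

/-- The universal property for bialgebra morphisms. -/
noncomputable def liftB (D : QD k B) {C : Type u} [Ring C] [HopfAlgebra k C] (f : B →ₐc[k] C)
    (w : C) (hw : w * w = D.e • w) (hc : ∀ b, w * f b = f b * w + f (D.δ b))
    (hp : comul (R := k) w = w ⊗ₜ 1 + 1 ⊗ₜ w) (hcw : counit (R := k) w = 0) :
    Ext D →ₐc[k] C :=
  BialgHom.ofAlgHom (lift D (f : B →ₐ[k] C) w hw hc)
    (by
      apply algHom_ext
      · apply AlgHom.ext
        intro b
        have e1 : lift D (f : B →ₐ[k] C) w hw hc (inl D b) = f b :=
          lift_inl (f : B →ₐ[k] C) w hw hc b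
        rw [AlgHom.comp_apply, AlgHom.comp_apply, AlgHom.comp_apply, e1,
          Bialgebra.counitAlgHom_apply, Bialgebra.counitAlgHom_apply, counit_eq, counitHom_inl]
        exact CoalgHomClass.counit_comp_apply f b
      · have e1 : lift D (f : B →ₐ[k] C) w hw hc (z D) = w :=
          lift_z (f : B →ₐ[k] C) w hw hc
        rw [AlgHom.comp_apply, e1, Bialgebra.counitAlgHom_apply, Bialgebra.counitAlgHom_apply,
          counit_eq, counitHom_z, hcw])
    (by
      apply algHom_ext
      · apply AlgHom.ext
        intro b
        have e1 : ∀ b, lift D (f : B →ₐ[k] C) w hw hc (inl D b) = f b :=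
          lift_inl (f : B →ₐ[k] C) w hw hc
        rw [AlgHom.comp_apply, AlgHom.comp_apply, AlgHom.comp_apply, AlgHom.comp_apply, e1,
          Bialgebra.comulAlgHom_apply, Bialgebra.comulAlgHom_apply, comul_eq, comulHom_inl]
        have h1 : ∀ t : B ⊗[k] B, Algebra.TensorProduct.map
            (lift D (f : B →ₐ[k] C) w hw hc) (lift D (f : B →ₐ[k] C) w hw hc) (inl2 D t) =
            TensorProduct.map (f : B →ₗ[k] C) (f : B →ₗ[k] C) t := by
          intro t
          induction t with
          | zero => simp
          | tmul a b =>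
            rw [inl2_tmul, Algebra.TensorProduct.map_tmul, e1, e1]
            rfl
          | add x y hx hy => simp only [map_add, hx, hy]
        rw [h1]
        exact CoalgHomClass.map_comp_comul_apply f b
      · have e1 : lift D (f : B →ₐ[k] C) w hw hc (z D) = w :=
          lift_z (f : B →ₐ[k] C) w hw hc
        rw [AlgHom.comp_apply, AlgHom.comp_apply, e1,
          Bialgebra.comulAlgHom_apply, Bialgebra.comulAlgHom_apply, comul_eq, comulHom_z, hp]
        simp only [zz, map_add, Algebra.TensorProduct.map_tmul, map_one, e1])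

@[simp] lemma liftB_apply {C : Type u} [Ring C] [HopfAlgebra k C] (f : B →ₐc[k] C)
    (w : C) (hw : w * w = D.e • w) (hc : ∀ b, w * f b = f b * w + f (D.δ b))
    (hp : comul (R := k) w = w ⊗ₜ 1 + 1 ⊗ₜ w) (hcw : counit (R := k) w = 0) (x : Ext D) :
    liftB D f w hw hc hp hcw x = f x.fst + f x.snd * w := rfl

/-- inclusion of the base as a bialgebra morphism -/
noncomputable def inlB (D : QD k B) : B →ₐc[k] Ext D :=
  BialgHom.ofAlgHom (inl D)
    (by
      apply AlgHom.ext
      intro b
      change counitHom D (inl D b) = counit (R := k) b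
      simp)
    (by
      apply AlgHom.ext
      intro b
      change Algebra.TensorProduct.map (inl D) (inl D) (comul b) = comulHom D (inl D b)
      rw [comulHom_inl]
      rfl)

@[simp] lemma inlB_apply (b : B) : inlB D b = inl D b := rfl

lemma comul_z : comul (R := k) (z D) = z D ⊗ₜ 1 + 1 ⊗ₜ z D := by
  rw [comul_eq, comulHom_z]; rfl

lemma counit_z : counit (R := k) (z D) = 0 := by
  rw [counit_eq, counitHom_z]

lemma comul_inl_prim {b : B} (hb : comul (R := k) b = b ⊗ₜ 1 + 1 ⊗ₜ b) :
    comul (R := k) (inl D b) = inl D b ⊗ₜ 1 + 1 ⊗ₜ inl D b := by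
  rw [comul_eq, comulHom_inl, hb]
  simp

lemma counit_inl (b : B) : counit (R := k) (inl D b) = counit (R := k) b := by
  rw [counit_eq, counitHom_inl]

end Ext

/-- trivial derivation -/
noncomputable def triv (B : Type u) [CommRing B] [HopfAlgebra k B] (e : k) (h2 : (2 : B) = 0) :
    QD k B where
  δ := 0
  e := e
  leib := by simp
  sq := by simp
  coder := by simp
  cou := by simp
  two := h2

@[simp] lemma triv_δ (e : k) (h2 : (2 : B) = 0) (b : B) : (triv B e h2).δ b = 0 := rfl
@[simp] lemma triv_e (e : k) (h2 : (2 : B) = 0) : (triv B e h2).e = e := rfl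

noncomputable instance (e : k) (h2 : (2 : B) = 0) : CommRing (Ext (triv B e h2)) :=
  { (inferInstance : Ring (Ext (triv B e h2))) with
    mul_comm := by
      intro x y
      ext
      · simp [mul_comm]
      · simp; ring }

/-- extend a square-zero derivation -/
noncomputable def extend (D : QD k B) (he : D.e = 0) (s : B)
    (hs : comul (R := k) s = s ⊗ₜ 1 + 1 ⊗ₜ s) (hcs : counit (R := k) s = 0) (hδ : D.δ s = 0) :
    QD k (Ext (triv B (0 : k) D.two)) where
  δ := 
    { toFun := fun x => Ext.mk (D.δ x.fst + x.snd * s) (D.δ x.snd)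
      map_add' := by intro x y; ext <;> simp; ring
      map_smul' := by intro c x; ext <;> simp }
  e := 0
  leib := by
    intro x y
    have h2 := D.two
    ext
    · simp [D.leib]; ring
    · simp [D.leib]
      linear_combination (-(x.snd * y.snd * s)) * h2
  sq := by
    intro x
    have h2 := D.two
    ext
    · simp [D.leib, D.sq, he, hδ]
      linear_combination (D.δ x.snd * s) * h2
    · simp [D.sq, he]
  coder := by
    intro x
    let D0 : QD k B := triv B (0 : k) D.two
    let d : Ext D0 →ₗ[k] Ext D0 :=
      { toFun := fun x => Ext.mk (D.δ x.fst + x.snd * s) (D.δ x.snd)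
        map_add' := by intro x y; ext <;> simp; ring
        map_smul' := by intro c x; ext <;> simp }
    have hd1 : ∀ b : B, d (Ext.inl D0 b) = Ext.inl D0 (D.δ b) := by
      intro b; ext <;> simp [d]
    have hd2 : ∀ b : B, d (Ext.inl D0 b * Ext.z D0) =
        Ext.inl D0 (b * s) + Ext.inl D0 (D.δ b) * Ext.z D0 := by
      intro b; ext <;> simp [d, D0]
    change comul (R := k) (d x) = (LinearMap.rTensor (Ext D0) d + LinearMap.lTensor (Ext D0) d)
      (comul x)
    have h1 : ∀ t : B ⊗[k] B, (LinearMap.rTensor (Ext D0) d + LinearMap.lTensor (Ext D0) d)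
        (Ext.inl2 D0 t) =
        Ext.inl2 D0 ((LinearMap.rTensor B D.δ + LinearMap.lTensor B D.δ) t) := by
      intro t
      induction t with
      | zero => simp
      | tmul a b =>
        simp only [LinearMap.add_apply, Ext.inl2_tmul, LinearMap.rTensor_tmul,
          LinearMap.lTensor_tmul, hd1, map_add]
      | add x y hx hy => simp only [map_add, hx, hy]
    have h2 : ∀ t : B ⊗[k] B, (LinearMap.rTensor (Ext D0) d + LinearMap.lTensor (Ext D0) d)
        (Ext.inl2 D0 t * Ext.zz D0) =
        Ext.inl2 D0 (t * (s ⊗ₜ 1 + 1 ⊗ₜ s)) +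
        Ext.inl2 D0 ((LinearMap.rTensor B D.δ + LinearMap.lTensor B D.δ) t) * Ext.zz D0 := by
      intro t
      induction t with
      | zero => simp
      | tmul a b =>
        simp only [Ext.zz, LinearMap.add_apply, Ext.inl2_tmul, LinearMap.rTensor_tmul,
          LinearMap.lTensor_tmul, hd1, hd2, map_add, mul_add, add_mul,
          Algebra.TensorProduct.tmul_mul_tmul, mul_one, TensorProduct.add_tmul,
          TensorProduct.tmul_add]
        abel
      | add x y hx hy =>
        simp only [map_add, add_mul, hx, hy]
        abel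
    have hx : d x = Ext.inl D0 (D.δ x.fst + x.snd * s) + Ext.inl D0 (D.δ x.snd) * Ext.z D0 := by
      ext <;> simp [d, D0]
    have hx2 : x = Ext.inl D0 x.fst + Ext.inl D0 x.snd * Ext.z D0 := Ext.eq_inl_add x
    rw [hx]
    conv_rhs => rw [hx2]
    simp only [Ext.comul_eq, map_add, map_mul, Ext.comulHom_inl, Ext.comulHom_z, h1, h2,
      Bialgebra.comul_mul, D.coder, hs]
    abel
  cou := by
    intro x
    let D0 : QD k B := triv B (0 : k) D.two
    change counit (R := k) (Ext.mk (D.δ x.fst + x.snd * s) (D.δ x.snd) : Ext D0) = 0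
    rw [Ext.eq_inl_add (Ext.mk (D.δ x.fst + x.snd * s) (D.δ x.snd) : Ext D0)]
    simp only [Ext.counit_eq, map_add, map_mul, Ext.counitHom_inl, Ext.counitHom_z,
      Ext.fst_mk, Ext.snd_mk, D.cou, Bialgebra.counit_mul, hcs, mul_zero, add_zero]
  two := Ext.two_eq_zero

@[simp] lemma extend_e (D : QD k B) (he : D.e = 0) (s : B)
    (hs : comul (R := k) s = s ⊗ₜ 1 + 1 ⊗ₜ s) (hcs : counit (R := k) s = 0) (hδ : D.δ s = 0) :
    (extend D he s hs hcs hδ).e = 0 := rfl

lemma extend_δ (D : QD k B) (he : D.e = 0) (s : B)
    (hs : comul (R := k) s = s ⊗ₜ 1 + 1 ⊗ₜ s) (hcs : counit (R := k) s = 0) (hδ : D.δ s = 0)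
    (x : Ext (triv B (0 : k) D.two)) :
    (extend D he s hs hcs hδ).δ x = Ext.mk (D.δ x.fst + x.snd * s) (D.δ x.snd) := rfl

/-- multiplication map attached to two bialgebra morphisms -/
noncomputable def mulMap {k : Type u} [Field k] {A H E : Type u} [Ring A] [HopfAlgebra k A]
    [Ring H] [HopfAlgebra k H] [Ring E] [HopfAlgebra k E] (i : A →ₐc[k] E) (j : H →ₐc[k] E) :
    A ⊗[k] H →ₗ[k] E :=
  LinearMap.mul' k E ∘ₗ TensorProduct.map (i : A →ₗ[k] E) (j : H →ₗ[k] E)

lemma mulMap_tmul {k : Type u} [Field k] {A H E : Type u} [Ring A] [HopfAlgebra k A]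
    [Ring H] [HopfAlgebra k H] [Ring E] [HopfAlgebra k E] (i : A →ₐc[k] E) (j : H →ₐc[k] E)
    (a : A) (h : H) : mulMap i j (a ⊗ₜ h) = i a * j h := rfl

end Pool.Agent.H11.QExt
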