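import Mathlib
import Pool.Agent.H11.QExt

/-!
A family of 16-dimensional Hopf algebras in a 32-dimensional Hopf algebra in characteristic two.
-/

set_option autoImplicit false

namespace Pool.Agent.H11.FactIdx

open TensorProduct Coalgebra Pool.Agent.H11.QExt

universe u

variable (k : Type u) [Field k] [CharP k 2]

lemma two_k : (2 : k) = 0 := CharTwo.two_eq_zero

/-- data for `c₁` -/
noncomputable abbrev D1 : QD k k := triv k (1 : k) (two_k k)
/-- `k[c₁]` -/
abbrev Q1 : Type u := Ext (D1 k)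
/-- data for `c₂` -/
noncomputable abbrev D2 : QD k (Q1 k) := triv (Q1 k) (1 : k) Ext.two_eq_zero
/-- `k[c₁, c₂]` -/
abbrev B0 : Type u := Ext (D2 k)

/-- `c₁` -/
noncomputable def c1 : B0 k := Ext.inl (D2 k) (Ext.z (D1 k))
/-- `c₂` -/
noncomputable def c2 : B0 k := Ext.z (D2 k)

lemma comul_c1 : comul (R := k) (c1 k) = c1 k ⊗ₜ 1 + 1 ⊗ₜ c1 k :=
  Ext.comul_inl_prim Ext.comul_z
lemma comul_c2 : comul (R := k) (c2 k) = c2 k ⊗ₜ 1 + 1 ⊗ₜ c2 k := Ext.comul_z
lemma counit_c1 : counit (R := k) (c1 k) = 0 := by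
  rw [c1, Ext.counit_inl, Ext.counit_z]
lemma counit_c2 : counit (R := k) (c2 k) = 0 := Ext.counit_z

/-- `s = c₁ + μ c₂` -/
noncomputable def s (m : k) : B0 k := c1 k + m • c2 k

lemma comul_s (m : k) : comul (R := k) (s k m) = s k m ⊗ₜ 1 + 1 ⊗ₜ s k m := by
  simp only [s, map_add, map_smul, comul_c1, comul_c2, TensorProduct.add_tmul,
    TensorProduct.tmul_add, smul_add, TensorProduct.smul_tmul', TensorProduct.tmul_smul]
  abel

lemma counit_s (m : k) : counit (R := k) (s k m) = 0 := by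
  simp [s, counit_c1, counit_c2]

/-- zero derivation on `B0` -/
noncomputable abbrev D3 : QD k (B0 k) := triv (B0 k) (0 : k) Ext.two_eq_zero

/-- `B0[y]` -/
abbrev B1 : Type u := Ext (triv (B0 k) (0 : k) (D3 k).two)

/-- the derivation `y ↦ s` -/
noncomputable abbrev DH (m : k) : QD k (B1 k) :=
  extend (D3 k) rfl (s k m) (comul_s k m) (counit_s k m) rfl

/-- The Hopf algebra `H_μ`. -/
abbrev H (m : k) : Type u := Ext (DH k m)

/-- the derivation `y ↦ c₁` -/
noncomputable abbrev D4 : QD k (B1 k) :=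
  extend (D3 k) rfl (c1 k) (comul_c1 k) (counit_c1 k) rfl

lemma DH_δ (m : k) (x : B1 k) : (DH k m).δ x = Ext.mk (0 + x.snd * s k m) 0 := rfl
lemma D4_δ (x : B1 k) : (D4 k).δ x = Ext.mk (0 + x.snd * c1 k) 0 := rfl

/-- `B0[y,z]` -/
abbrev B2 : Type u := Ext (triv (B1 k) (0 : k) (D4 k).two)

/-- The derivation `y ↦ c₁`, `z ↦ c₂`. -/
noncomputable abbrev DE : QD k (B2 k) :=
  extend (D4 k) rfl (Ext.inl _ (c2 k)) (Ext.comul_inl_prim (comul_c2 k))
    (by rw [Ext.counit_inl]; exact counit_c2 k) (by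
      rw [D4_δ]
      ext <;> simp)

lemma DE_δ (x : B2 k) : (DE k).δ x =
    Ext.mk ((D4 k).δ x.fst + x.snd * Ext.inl _ (c2 k)) ((D4 k).δ x.snd) := rfl

lemma DE_e : (DE k).e = 0 := rfl
lemma DH_e (m : k) : (DH k m).e = 0 := rfl

/-- The Hopf algebra `E`. -/
abbrev E : Type u := Ext (DE k)

/-- The Hopf algebra `A = k[z]`. -/
abbrev A : Type u := Ext (triv k (0 : k) (two_k k))

/-- `y` in `B2` -/
noncomputable def y2 : B2 k := Ext.inl _ (Ext.z _)
/-- `z` in `B2` -/
noncomputable def z2 : B2 k := Ext.z _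

lemma comul_y2 : comul (R := k) (y2 k) = y2 k ⊗ₜ 1 + 1 ⊗ₜ y2 k :=
  Ext.comul_inl_prim Ext.comul_z
lemma comul_z2 : comul (R := k) (z2 k) = z2 k ⊗ₜ 1 + 1 ⊗ₜ z2 k := Ext.comul_z

lemma y2_sq : y2 k * y2 k = 0 := by
  ext <;> simp [y2]
lemma z2_sq : z2 k * z2 k = 0 := by
  ext <;> simp [z2]

/-- `w = y + μ z` -/
noncomputable def w2 (m : k) : B2 k := y2 k + m • z2 k

lemma w2_sq (m : k) : w2 k m * w2 k m = 0 := by
  have h1 : w2 k m * w2 k m = y2 k * y2 k + (m * m) • (z2 k * z2 k) +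
      (m • (y2 k * z2 k) + m • (y2 k * z2 k)) := by
    simp only [w2, mul_add, add_mul, smul_mul_assoc, mul_smul_comm, smul_smul, smul_add,
      mul_comm (z2 k) (y2 k)]
    abel
  rw [h1, y2_sq, z2_sq, Ext.add_self]
  simp

lemma comul_w2 (m : k) : comul (R := k) (w2 k m) = w2 k m ⊗ₜ 1 + 1 ⊗ₜ w2 k m := by
  simp only [w2, map_add, map_smul, comul_y2, comul_z2, TensorProduct.add_tmul,
    TensorProduct.tmul_add, smul_add, TensorProduct.smul_tmul', TensorProduct.tmul_smul]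
  abel

lemma counit_w2 (m : k) : counit (R := k) (w2 k m) = 0 := by
  simp only [w2, map_add, map_smul, y2, z2, Ext.counit_inl, Ext.counit_z, smul_zero, add_zero]

/-- `B0[w] → B0[y,z]` -/
noncomputable def g (m : k) : B1 k →ₐc[k] B2 k :=
  Ext.liftB _ ((Ext.inlB _).comp (Ext.inlB _)) (w2 k m)
    (by rw [w2_sq]; simp) (by intro b; rw [triv_δ, map_zero, add_zero, mul_comm])
    (comul_w2 k m) (counit_w2 k m)

lemma g_apply (m : k) (x : B1 k) : g k m x =
    Ext.mk (Ext.mk x.fst x.snd) (Ext.mk (m • x.snd) 0) := by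
  rw [g, Ext.liftB_apply]
  apply Ext.ext <;> apply Ext.ext <;> simp [w2, y2, z2]

lemma DE_g (m : k) (x : B1 k) : (DE k).δ (g k m x) = g k m ((DH k m).δ x) := by
  rw [g_apply, g_apply, DE_δ, DH_δ, D4_δ, D4_δ]
  apply Ext.ext <;> apply Ext.ext <;> simp [s, mul_add]

/-- The inclusion `B1 → E`. -/
noncomputable def gE (m : k) : B1 k →ₐc[k] E k := (Ext.inlB (DE k)).comp (g k m)

lemma gE_apply (m : k) (b : B1 k) : gE k m b = Ext.inl (DE k) (g k m b) := by
  rw [gE, BialgHom.coe_comp, Function.comp_apply, Ext.inlB_apply]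

/-- The inclusion `H_μ → E`. -/
noncomputable def j (m : k) : H k m →ₐc[k] E k :=
  Ext.liftB (DH k m) (gE k m) (Ext.z (DE k))
    (by rw [Ext.z_mul_z, DE_e, DH_e]) (by
      intro b
      rw [gE_apply, gE_apply, Ext.z_mul_inl, DE_g])
    Ext.comul_z Ext.counit_z

lemma j_apply (m : k) (x : H k m) : j k m x = Ext.mk (g k m x.fst) (g k m x.snd) := by
  rw [j, Ext.liftB_apply, gE_apply, gE_apply]
  apply Ext.ext <;> simp

lemma g_injective (m : k) : Function.Injective (g k m) := by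
  intro x y h
  rw [g_apply, g_apply] at h
  have h1 := congrArg Ext.fst h
  simp only [Ext.fst_mk] at h1
  have h2 := congrArg Ext.fst h1
  have h3 := congrArg Ext.snd h1
  simp only [Ext.fst_mk, Ext.snd_mk] at h2 h3
  exact Ext.ext h2 h3

lemma j_injective (m : k) : Function.Injective (j k m) := by
  intro x y h
  rw [j_apply, j_apply] at h
  have h1 := congrArg Ext.fst h
  have h2 := congrArg Ext.snd h
  simp only [Ext.fst_mk, Ext.snd_mk] at h1 h2
  exact Ext.ext (g_injective k m h1) (g_injective k m h2)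

/-- `z` in `E` -/
noncomputable def zE : E k := Ext.inl (DE k) (z2 k)

lemma zE_sq : zE k * zE k = 0 := by
  rw [zE, ← map_mul, z2_sq, map_zero]

lemma comul_zE : comul (R := k) (zE k) = zE k ⊗ₜ 1 + 1 ⊗ₜ zE k := by
  rw [zE]
  exact Ext.comul_inl_prim (comul_z2 k)

lemma counit_zE : counit (R := k) (zE k) = 0 := by
  rw [zE, Ext.counit_inl]
  exact Ext.counit_z

/-- The map from `k[z]` to a Hopf algebra given by a square-zero primitive element. -/
noncomputable def fromA {C : Type u} [Ring C] [HopfAlgebra k C] (w : C) (hw : w * w = 0)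
    (hp : comul (R := k) w = w ⊗ₜ 1 + 1 ⊗ₜ w) (hcw : counit (R := k) w = 0) :
    A k →ₐc[k] C :=
  Ext.liftB (triv k (0 : k) (two_k k)) (Bialgebra.unitBialgHom k C) w
    (by rw [hw, triv_e, zero_smul])
    (by
      intro b
      rw [triv_δ, map_zero, add_zero]
      exact (Algebra.commutes b w).symm)
    hp hcw

lemma fromA_apply {C : Type u} [Ring C] [HopfAlgebra k C] (w : C) (hw : w * w = 0)
    (hp : comul (R := k) w = w ⊗ₜ 1 + 1 ⊗ₜ w) (hcw : counit (R := k) w = 0) (x : A k) :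
    fromA k w hw hp hcw x = x.fst • (1 : C) + x.snd • w := by
  rw [fromA, Ext.liftB_apply]
  change algebraMap k C x.fst + algebraMap k C x.snd * w = _
  rw [Algebra.algebraMap_eq_smul_one, Algebra.algebraMap_eq_smul_one, smul_one_mul]

/-- The inclusion `A → E`. -/
noncomputable def i : A k →ₐc[k] E k :=
  fromA k (zE k) (zE_sq k) (comul_zE k) (counit_zE k)

lemma i_apply (x : A k) : i k x = x.fst • (1 : E k) + x.snd • zE k := fromA_apply k _ _ _ _ x

lemma z2_mul_g (m : k) (x : B1 k) : z2 k * g k m x = Ext.mk 0 x := by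
  rw [g_apply]
  apply Ext.ext
  · simp [z2]
  · apply Ext.ext <;> simp [z2]

lemma zE_mul_j (m : k) (x : H k m) : zE k * j k m x =
    Ext.mk (Ext.mk 0 x.fst) (Ext.mk 0 x.snd) := by
  rw [j_apply, zE, Ext.inl_mul_mk, z2_mul_g, z2_mul_g]

lemma decomp (m : k) (u : B2 k) : u = g k m (Ext.mk u.fst.fst u.fst.snd) +
    Ext.mk 0 (Ext.mk (u.snd.fst - m • u.fst.snd) u.snd.snd) := by
  rw [g_apply]
  apply Ext.ext <;> apply Ext.ext <;> simp

lemma surj (m : k) (e : E k) : ∃ h h' : H k m, e = j k m h + zE k * j k m h' := by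
  refine ⟨Ext.mk (Ext.mk e.fst.fst.fst e.fst.fst.snd) (Ext.mk e.snd.fst.fst e.snd.fst.snd),
    Ext.mk (Ext.mk (e.fst.snd.fst - m • e.fst.fst.snd) e.fst.snd.snd)
      (Ext.mk (e.snd.snd.fst - m • e.snd.fst.snd) e.snd.snd.snd), ?_⟩
  rw [zE_mul_j, j_apply]
  have h1 := decomp k m e.fst
  have h2 := decomp k m e.snd
  apply Ext.ext
  · rw [Ext.fst_add, Ext.fst_mk, Ext.fst_mk, Ext.fst_mk, Ext.fst_mk]
    exact h1
  · rw [Ext.snd_add, Ext.snd_mk, Ext.snd_mk, Ext.snd_mk, Ext.snd_mk]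
    exact h2


lemma i_one : i k 1 = 1 := map_one _

lemma i_z : i k (Ext.z _) = zE k := by
  rw [i_apply]
  simp

lemma mulMap_surjective (m : k) : Function.Surjective (mulMap (i k) (j k m)) := by
  intro e
  obtain ⟨h, h', he⟩ := surj k m e
  refine ⟨1 ⊗ₜ h + Ext.z _ ⊗ₜ h', ?_⟩
  rw [map_add, mulMap_tmul, mulMap_tmul, i_one, i_z, one_mul, ← he]

lemma finrank_A : Module.finrank k (A k) = 2 := by
  rw [Ext.finrank_ext]; simp

lemma finrank_H (m : k) : Module.finrank k (H k m) = 16 := by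
  rw [Ext.finrank_ext, Ext.finrank_ext, Ext.finrank_ext, Ext.finrank_ext]; simp

lemma finrank_E : Module.finrank k (E k) = 32 := by
  rw [Ext.finrank_ext, Ext.finrank_ext, Ext.finrank_ext, Ext.finrank_ext, Ext.finrank_ext]; simp

lemma mulMap_bijective (m : k) : Function.Bijective (mulMap (i k) (j k m)) := by
  refine ⟨?_, mulMap_surjective k m⟩
  have h : Module.finrank k (A k ⊗[k] H k m) = Module.finrank k (E k) := by
    rw [Module.finrank_tensorProduct, finrank_A, finrank_H, finrank_E]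
  exact (LinearMap.injective_iff_surjective_of_finrank_eq_finrank h).2 (mulMap_surjective k m)

lemma i_injective : Function.Injective (i k) := by
  intro x y h
  rw [i_apply, i_apply] at h
  have h1 := congrArg (fun t => t.fst.fst.fst.fst.fst) h
  have h2 := congrArg (fun t => t.fst.snd.fst.fst.fst) h
  simp [zE, z2] at h1 h2
  exact Ext.ext h1 h2

end Pool.Agent.H11.FactIdx
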