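import Mathlib
import Pool.Agent.H11.FactIdx

/-!
Distinguishing the Hopf algebras `H_μ`.
-/

set_option autoImplicit false

namespace Pool.Agent.H11.FactIdx

open TensorProduct Coalgebra Pool.Agent.H11.QExt

universe u

section generic

variable {k : Type u} [Field k] {R : Type u} [Ring R] [Algebra k R]

lemma comm_formula (h2 : ∀ x : R, x + x = 0) (C1 C2 W X S : R)
    (r3 : C2 * C1 = C1 * C2) (r4 : W * W = 0) (r5 : X * X = 0)
    (r6 : X * W = W * X + S) (r7 : X * C1 = C1 * X) (r8 : X * C2 = C2 * X)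
    (r9 : W * C1 = C1 * W) (r10 : W * C2 = C2 * W) (a b c d a' b' c' d' : k) :
    (a • C1 + b • C2 + c • W + d • X) * (a' • C1 + b' • C2 + c' • W + d' • X) +
    (a' • C1 + b' • C2 + c' • W + d' • X) * (a • C1 + b • C2 + c • W + d • X) =
      (c * d' + c' * d) • S := by
  simp only [mul_add, add_mul, smul_mul_smul_comm, r3, r4, r5, r6, r7, r8, r9, r10, smul_zero]
  linear_combination (norm := module) (a * a') • h2 (C1 * C1) + (b * b') • h2 (C2 * C2) +
    (a * b' + b * a') • h2 (C1 * C2) + (a * c' + c * a') • h2 (C1 * W) +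
    (a * d' + d * a') • h2 (C1 * X) + (b * c' + c * b') • h2 (C2 * W) +
    (b * d' + d * b') • h2 (C2 * X) + (c * d' + d * c') • h2 (W * X)

lemma sq_formula (h2 : ∀ x : R, x + x = 0) (C1 C2 W X S : R)
    (r1 : C1 * C1 = C1) (r2 : C2 * C2 = C2)
    (r3 : C2 * C1 = C1 * C2) (r4 : W * W = 0) (r5 : X * X = 0)
    (r6 : X * W = W * X + S) (r7 : X * C1 = C1 * X) (r8 : X * C2 = C2 * X)
    (r9 : W * C1 = C1 * W) (r10 : W * C2 = C2 * W) (a b c d : k) :
    (a • C1 + b • C2 + c • W + d • X) * (a • C1 + b • C2 + c • W + d • X) =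
      (a * a) • C1 + (b * b) • C2 + (c * d) • S := by
  simp only [mul_add, add_mul, smul_mul_smul_comm, r1, r2, r3, r4, r5, r6, r7, r8, r9, r10,
    smul_zero]
  linear_combination (norm := module) 
    (a * b) • h2 (C1 * C2) + (a * c) • h2 (C1 * W) +
    (a * d) • h2 (C1 * X) + (b * c) • h2 (C2 * W) +
    (b * d) • h2 (C2 * X) + (c * d) • h2 (W * X)

lemma prim_map {A B : Type u} [Ring A] [HopfAlgebra k A] [Ring B] [HopfAlgebra k B]
    (f : A →ₐc[k] B) {x : A} (hx : comul (R := k) x = x ⊗ₜ 1 + 1 ⊗ₜ x) :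
    comul (R := k) (f x) = f x ⊗ₜ 1 + 1 ⊗ₜ f x := by
  rw [← CoalgHomClass.map_comp_comul_apply f x, hx, map_add, TensorProduct.map_tmul,
    TensorProduct.map_tmul]
  have h1 : (f : A →ₗ[k] B) 1 = 1 := map_one f
  have h2 : (f : A →ₗ[k] B) x = f x := rfl
  rw [h1, h2]

lemma comm_aux (h2 : ∀ x : R, x + x = 0) {W X S : R} (h : X * W = W * X + S) :
    X * W + W * X = S := by
  have := h2 (W * X)
  rw [h]
  calc W * X + S + W * X = S + (W * X + W * X) := by abel
    _ = S := by rw [this, add_zero]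

lemma map_comm_aux {A B : Type u} [Ring A] [HopfAlgebra k A] [Ring B] [HopfAlgebra k B]
    (f : A →ₐc[k] B) {W X C1 C2 : A} {m : k} (h : X * W + W * X = C1 + m • C2) :
    f X * f W + f W * f X = f C1 + m • f C2 := by
  rw [← map_mul, ← map_mul, ← map_add, h, map_add, map_smul]

lemma map_sq_aux {A B : Type u} [Ring A] [HopfAlgebra k A] [Ring B] [HopfAlgebra k B]
    (f : A →ₐc[k] B) {C : A} (h : C * C = C) : f C * f C = f C := by
  rw [← map_mul, h]

lemma map_zero_aux {A B : Type u} [Ring A] [HopfAlgebra k A] [Ring B] [HopfAlgebra k B]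
    (f : A →ₐc[k] B) (hf : Function.Injective f) {C1 C2 : A} {m : k}
    (h : f C1 + m • f C2 = 0) : C1 + m • C2 = 0 := by
  apply hf
  rw [map_zero, map_add, map_smul, h]

end generic

variable (k : Type u) [Field k] [CharP k 2]

/-- `c₁` in `H_μ` -/
noncomputable def C1 (m : k) : H k m := Ext.inl _ (Ext.inl _ (c1 k))
/-- `c₂` in `H_μ` -/
noncomputable def C2 (m : k) : H k m := Ext.inl _ (Ext.inl _ (c2 k))
/-- `w` in `H_μ` -/
noncomputable def W (m : k) : H k m := Ext.inl _ (Ext.z _)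
/-- `x` in `H_μ` -/
noncomputable def X (m : k) : H k m := Ext.z _

lemma c1_sq : c1 k * c1 k = c1 k := by
  rw [c1, ← map_mul, Ext.z_mul_z, triv_e, one_smul]

lemma c2_sq : c2 k * c2 k = c2 k := by
  rw [c2, Ext.z_mul_z, triv_e, one_smul]

lemma C1_sq (m : k) : C1 k m * C1 k m = C1 k m := by
  rw [C1, ← map_mul, ← map_mul, c1_sq]

lemma C2_sq (m : k) : C2 k m * C2 k m = C2 k m := by
  rw [C2, ← map_mul, ← map_mul, c2_sq]

lemma C2_C1 (m : k) : C2 k m * C1 k m = C1 k m * C2 k m := by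
  rw [C1, C2, ← map_mul, ← map_mul, ← map_mul, ← map_mul, mul_comm]

lemma W_sq (m : k) : W k m * W k m = 0 := by
  rw [W, ← map_mul, Ext.z_mul_z, triv_e, zero_smul, map_zero]

lemma X_sq (m : k) : X k m * X k m = 0 := by
  rw [X, Ext.z_mul_z, DH_e, zero_smul]

lemma X_W (m : k) : X k m * W k m = W k m * X k m + (C1 k m + m • C2 k m) := by
  rw [X, W, Ext.z_mul_inl, DH_δ]
  congr 1
  have h : (Ext.mk (0 + (Ext.z (triv (B0 k) (0 : k) (D3 k).two)).snd * s k m) 0 : B1 k) =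
      Ext.inl _ (c1 k) + m • Ext.inl _ (c2 k) := by
    apply Ext.ext <;> simp [s]
  rw [h, map_add, map_smul]
  rfl

lemma X_inl (m : k) (b : B0 k) : X k m * Ext.inl _ (Ext.inl _ b) =
    Ext.inl _ (Ext.inl _ b) * X k m := by
  rw [X, Ext.z_mul_inl, DH_δ]
  have h : (Ext.mk (0 + (Ext.inl (triv (B0 k) (0 : k) (D3 k).two) b).snd * s k m) 0 : B1 k) =
      0 := by
    apply Ext.ext <;> simp
  rw [h, map_zero, add_zero]

lemma W_inl (m : k) (b : B1 k) : W k m * Ext.inl _ b = Ext.inl _ b * W k m := by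
  rw [W, ← map_mul, ← map_mul, mul_comm]

lemma X_C1 (m : k) : X k m * C1 k m = C1 k m * X k m := by rw [C1, X_inl]
lemma X_C2 (m : k) : X k m * C2 k m = C2 k m * X k m := by rw [C2, X_inl]
lemma W_C1 (m : k) : W k m * C1 k m = C1 k m * W k m := by rw [C1, W_inl]
lemma W_C2 (m : k) : W k m * C2 k m = C2 k m * W k m := by rw [C2, W_inl]

/-- coordinates -/
noncomputable def κ1 {m : k} (x : H k m) : k := x.fst.fst.fst.snd
/-- coordinates -/
noncomputable def κ2 {m : k} (x : H k m) : k := x.fst.fst.snd.fst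
/-- coordinates -/
noncomputable def κ3 {m : k} (x : H k m) : k := x.fst.snd.fst.fst
/-- coordinates -/
noncomputable def κ4 {m : k} (x : H k m) : k := x.snd.fst.fst.fst

/-- linear combinations -/
noncomputable def P (m a b c d : k) : H k m := a • C1 k m + b • C2 k m + c • W k m + d • X k m

lemma κ1_P (m a b c d : k) : κ1 k (P k m a b c d) = a := by
  simp [κ1, P, C1, C2, W, X, c1, c2]
lemma κ2_P (m a b c d : k) : κ2 k (P k m a b c d) = b := by
  simp [κ2, P, C1, C2, W, X, c1, c2]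
lemma κ3_P (m a b c d : k) : κ3 k (P k m a b c d) = c := by
  simp [κ3, P, C1, C2, W, X, c1, c2]
lemma κ4_P (m a b c d : k) : κ4 k (P k m a b c d) = d := by
  simp [κ4, P, C1, C2, W, X, c1, c2]

lemma P_inj {m a b c d a' b' c' d' : k} (h : P k m a b c d = P k m a' b' c' d') :
    a = a' ∧ b = b' ∧ c = c' ∧ d = d' := by
  refine ⟨?_, ?_, ?_, ?_⟩
  · rw [← κ1_P k m a b c d, h, κ1_P]
  · rw [← κ2_P k m a b c d, h, κ2_P]
  · rw [← κ3_P k m a b c d, h, κ3_P]
  · rw [← κ4_P k m a b c d, h, κ4_P]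

lemma P_sq (m a b c d : k) : P k m a b c d * P k m a b c d =
    P k m (a * a + c * d) (b * b + c * d * m) 0 0 := by
  have h := sq_formula (k := k) (R := H k m) (fun x => Ext.add_self x) (C1 k m) (C2 k m)
    (W k m) (X k m) (C1 k m + m • C2 k m) (C1_sq k m) (C2_sq k m) (C2_C1 k m) (W_sq k m)
    (X_sq k m) (X_W k m) (X_C1 k m) (X_C2 k m) (W_C1 k m) (W_C2 k m) a b c d
  rw [P, h, P]
  module

lemma P_comm (m a b c d a' b' c' d' : k) : P k m a b c d * P k m a' b' c' d' +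
    P k m a' b' c' d' * P k m a b c d =
    P k m (c * d' + c' * d) ((c * d' + c' * d) * m) 0 0 := by
  have h := comm_formula (k := k) (R := H k m) (fun x => Ext.add_self x) (C1 k m) (C2 k m)
    (W k m) (X k m) (C1 k m + m • C2 k m) (C2_C1 k m) (W_sq k m)
    (X_sq k m) (X_W k m) (X_C1 k m) (X_C2 k m) (W_C1 k m) (W_C2 k m)
    a b c d a' b' c' d'
  rw [P, P, h, P]
  module

lemma prim_k {x : k} (hx : comul (R := k) x = x ⊗ₜ 1 + 1 ⊗ₜ x) : x = 0 := by
  rw [CommSemiring.comul_apply] at hx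
  have h1 : x ⊗ₜ[k] (1 : k) = 0 := by
    have := congrArg (fun t => t - (1 : k) ⊗ₜ[k] x) hx
    simpa using this.symm
  have h2 := congrArg (TensorProduct.lid k k) h1
  simpa using h2

/-- primitive elements of `H_μ` -/
lemma prim_H {m : k} {x : H k m} (hx : comul (R := k) x = x ⊗ₜ 1 + 1 ⊗ₜ x) :
    ∃ a b c d : k, x = P k m a b c d := by
  obtain ⟨h1, h1'⟩ := Ext.prim_ext hx
  obtain ⟨h2, h2'⟩ := Ext.prim_ext h1
  obtain ⟨h3, h3'⟩ := Ext.prim_ext h2
  obtain ⟨h4, h4'⟩ := Ext.prim_ext h3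
  have h5 := prim_k k h4
  rw [Algebra.algebraMap_eq_smul_one] at h1' h2' h3' h4'
  generalize counit (R := k) x.snd = d at h1'
  generalize counit (R := k) x.fst.snd = c at h2'
  generalize counit (R := k) x.fst.fst.snd = b at h3'
  generalize counit (R := k) x.fst.fst.fst.snd = a at h4'
  refine ⟨a, b, c, d, ?_⟩
  apply Ext.ext
  · apply Ext.ext
    · apply Ext.ext
      · apply Ext.ext
        · rw [h5]; simp [P, C1, C2, W, X, c1, c2]
        · rw [h4']; simp [P, C1, C2, W, X, c1, c2]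
      · rw [h3']; simp [P, C1, C2, W, X, c1, c2]
    · rw [h2']; simp [P, C1, C2, W, X, c1, c2]
  · rw [h1']; simp [P, C1, C2, W, X, c1, c2]

lemma P_C1 (m : k) : C1 k m = P k m 1 0 0 0 := by rw [P]; module
lemma P_C2 (m : k) : C2 k m = P k m 0 1 0 0 := by rw [P]; module
lemma P_W (m : k) : W k m = P k m 0 0 1 0 := by rw [P]; module
lemma P_X (m : k) : X k m = P k m 0 0 0 1 := by rw [P]; module

lemma comul_C1 (m : k) : comul (R := k) (C1 k m) = C1 k m ⊗ₜ 1 + 1 ⊗ₜ C1 k m :=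
  Ext.comul_inl_prim (Ext.comul_inl_prim (comul_c1 k))
lemma comul_C2 (m : k) : comul (R := k) (C2 k m) = C2 k m ⊗ₜ 1 + 1 ⊗ₜ C2 k m :=
  Ext.comul_inl_prim (Ext.comul_inl_prim (comul_c2 k))
lemma comul_W (m : k) : comul (R := k) (W k m) = W k m ⊗ₜ 1 + 1 ⊗ₜ W k m :=
  Ext.comul_inl_prim Ext.comul_z
lemma comul_X (m : k) : comul (R := k) (X k m) = X k m ⊗ₜ 1 + 1 ⊗ₜ X k m := Ext.comul_z

lemma X_W' (m : k) : X k m * W k m + W k m * X k m = C1 k m + m • C2 k m :=
  comm_aux (fun x => Ext.add_self x) (X_W k m)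

lemma P_zero (m : k) : P k m 0 0 0 0 = 0 := by rw [P]; module

lemma S_ne_zero (m : k) : C1 k m + m • C2 k m ≠ 0 := by
  intro h
  have hS3 : P k m 1 m 0 0 = P k m 0 0 0 0 := by
    have t1 : P k m 1 m 0 0 = C1 k m + m • C2 k m := by rw [P]; module
    rw [t1, P_zero, h]
  exact one_ne_zero (P_inj k hS3).1

lemma P_add_smul (n m a1 b1 a2 b2 : k) : P k n a1 b1 0 0 + m • P k n a2 b2 0 0 =
    P k n (a1 + m * a2) (b1 + m * b2) 0 0 := by
  simp only [P]; module

lemma idem_coord {n a b c d : k} (h : P k n a b c d * P k n a b c d = P k n a b c d) :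
    (a = 0 ∨ a = 1) ∧ (b = 0 ∨ b = 1) ∧ c = 0 ∧ d = 0 := by
  rw [P_sq] at h
  obtain ⟨h1, h2, h3, h4⟩ := P_inj k h
  subst h3 h4
  refine ⟨?_, ?_, rfl, rfl⟩
  · have : a * (a - 1) = 0 := by linear_combination h1
    rcases mul_eq_zero.1 this with h | h
    · exact Or.inl h
    · exact Or.inr (by linear_combination h)
  · have : b * (b - 1) = 0 := by linear_combination h2
    rcases mul_eq_zero.1 this with h | h
    · exact Or.inl h
    · exact Or.inr (by linear_combination h)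

lemma iso_param {m n : k} (φ : H k m →ₐc[k] H k n) (hφ : Function.Injective φ) :
    ∃ a1 b1 a2 b2 : k, (a1 = 0 ∨ a1 = 1) ∧ (b1 = 0 ∨ b1 = 1) ∧ (a2 = 0 ∨ a2 = 1) ∧
      (b2 = 0 ∨ b2 = 1) ∧ n = (b1 + m * b2) / (a1 + m * a2) := by
  obtain ⟨a1, b1, c1', d1, h1⟩ := prim_H k (prim_map φ (comul_C1 k m))
  obtain ⟨a2, b2, c2', d2, h2⟩ := prim_H k (prim_map φ (comul_C2 k m))
  obtain ⟨a3, b3, c3, d3, h3⟩ := prim_H k (prim_map φ (comul_W k m))
  obtain ⟨a4, b4, c4, d4, h4⟩ := prim_H k (prim_map φ (comul_X k m))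
  have e1 := map_sq_aux φ (C1_sq k m)
  have e2 := map_sq_aux φ (C2_sq k m)
  rw [h1] at e1
  rw [h2] at e2
  obtain ⟨p1, p2, p3, p4⟩ := idem_coord k e1
  obtain ⟨q1, q2, q3, q4⟩ := idem_coord k e2
  subst p3 p4 q3 q4
  have e3 := map_comm_aux φ (X_W' k m)
  rw [h3, h4, P_comm, h1, h2, P_add_smul] at e3
  obtain ⟨r1, r2, -, -⟩ := P_inj k e3
  have hne : a1 + m * a2 ≠ 0 := by
    intro h0
    apply S_ne_zero k m
    apply map_zero_aux φ hφ
    rw [h1, h2, P_add_smul, ← r2, r1, h0, zero_mul, P_zero]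
  refine ⟨a1, b1, a2, b2, p1, p2, q1, q2, ?_⟩
  rw [eq_div_iff hne, ← r2, ← r1]
  ring

end Pool.Agent.H11.FactIdx
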