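import Mathlib

/-!
# Nef classes on manifolds with trivial canonical class: reduction to the irreducible factors

`X` is a projective manifold of any dimension with `K_X ~ 0` and `H^1(X, O_X) = 0`. By Beauville and
Bogomolov there is a finite étale Galois covering `X' -> X` with group `G` and
`X' = A × Y_1 × ... × Y_n`, where `A` is an abelian variety and the `Y_i` are simply connected: K3
surfaces, and strict Calabi-Yau or hyperkähler manifolds of dimension at least three.
-/

namespace Pool.Agent.H11.Split

/-- A nef line bundle `M` on `A` which is the restriction of a `G`-invariant one on `X'`. `K` is the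
largest abelian subvariety on which `M` is numerically trivial (the neutral component of the kernel
of `φ_M : A -> Pic^0(A)`). The group `G` acts on `A` by automorphisms of the variety, `Pic^0` of which
is not changed by translations. -/
structure Flat (G : Type) [Group G] [Fintype G] where
  /-- `Pic^0(K)` -/
  Z : Type
  [grpZ : AddCommGroup Z]
  /-- the action of `G` on `Pic^0(K)` -/
  act : G → Z →+ Z
  /-- `H^1(A, O_A)` and `H^1(K, O_K)`, the tangent space of `Pic^0(K)` -/
  W : Type
  V : Type
  [grpW : AddCommGroup W]
  [modW : Module ℂ W]
  [grpV : AddCommGroup V]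
  [modV : Module ℂ V]
  actW : G → W →ₗ[ℂ] W
  actV : G → V →ₗ[ℂ] V
  mul_W : ∀ g g' w, actW (g * g') w = actW g (actW g' w)
  /-- the restriction is onto (Poincaré's complete reducibility) and equivariant -/
  r : W →ₗ[ℂ] V
  r_onto : Function.Surjective r
  r_act : ∀ g w, r (actW g w) = actV g (r w)
  /-- `H^1(X, O_X) = 0` is the space of invariants of `H^1(X', O_(X')) = H^1(A, O_A)` -/
  inv : ∀ w, (∀ g, actW g w = w) → w = 0
  /-- an endomorphism of an abelian variety with vanishing differential is zero -/
  rigid : ∑ g, actV g = 0 → ∀ z, ∑ g, act g z = 0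
  /-- the restriction of `M` to `K`; it does not depend on the translate of `K`, and `M` is invariant -/
  p : Z
  p_inv : ∀ g, act g p = p

attribute [instance] Flat.grpZ Flat.grpW Flat.modW Flat.grpV Flat.modV

/-- the restriction of the line bundle to `K` is torsion -/
theorem Flat.torsion {G : Type} [Group G] [Fintype G] (F : Flat G) : Fintype.card G • F.p = 0 := by
  have h1 : ∀ w, ∑ g, F.actW g w = 0 := by
    intro w
    refine F.inv _ fun g => ?_
    rw [map_sum]
    calc ∑ x, F.actW g (F.actW x w) = ∑ x, F.actW (g * x) w :=
          Finset.sum_congr rfl fun x _ => (F.mul_W g x w).symm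
      _ = ∑ x, F.actW x w := Fintype.sum_equiv (Equiv.mulLeft g) _ _ fun x => rfl
  have h2 : ∑ g, F.actV g = 0 := by
    ext v
    obtain ⟨w, rfl⟩ := F.r_onto v
    rw [LinearMap.sum_apply, LinearMap.zero_apply]
    calc ∑ g, F.actV g (F.r w) = ∑ g, F.r (F.actW g w) :=
          Finset.sum_congr rfl fun g _ => (F.r_act g w).symm
      _ = F.r (∑ g, F.actW g w) := (map_sum F.r _ _).symm
      _ = 0 := by rw [h1, map_zero]
  have h3 := F.rigid h2 F.p
  rw [Finset.sum_congr rfl fun g _ => F.p_inv g] at h3
  simpa using h3

/-- The data of `X` and `X' = A × Y_1 × ... × Y_n`. `P` is the Picard group of `X`, `Q i` that of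
`Y_i`, `R` that of `A`. -/
structure Data (P : Type) [AddCommGroup P] (I : Type) (Q : I → Type)
    [∀ i, AddCommGroup (Q i)] where
  /-- nef and semiample classes on `X`, on the `Y_i` and on `A` -/
  nef : P → Prop
  sa : P → Prop
  nefY : ∀ i, Q i → Prop
  saY : ∀ i, Q i → Prop
  R : Type
  [grpR : AddCommGroup R]
  saA : R → Prop
  /-- restriction of the pull back to the factors -/
  res : ∀ i, P →+ Q i
  resA : P →+ R
  nef_res : ∀ x i, nef x → nefY i (res i x)
  /-- The pull back of `x` is the sum of its restrictions to the factors (`Y_i` is simply connected),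
  and semiampleness descends along finite coverings (norm). -/
  descent : ∀ x, (∀ i, saY i (res i x)) → saA (resA x) → sa x
  G : Type
  [grpG : Group G]
  [finG : Fintype G]
  /-- If a multiple of the restriction of `M` to `K` is trivial, a multiple of `M` is the pull back of
  an ample line bundle on `A/K`. -/
  flat : ∀ x, nef x → ∃ F : Flat G, ∀ n : ℕ, 0 < n → n • F.p = 0 → saA (resA x)

attribute [instance] Data.grpR Data.grpG Data.finG

/-- nef classes on `X` are semiample if this is true for the irreducible factors -/
theorem Data.semiample {P : Type} [AddCommGroup P] {I : Type} {Q : I → Type}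
    [∀ i, AddCommGroup (Q i)] (D : Data P I Q) (h : ∀ i y, D.nefY i y → D.saY i y) (x : P)
    (hx : D.nef x) : D.sa x := by
  refine D.descent x (fun i => h i _ (D.nef_res x i hx)) ?_
  obtain ⟨F, hF⟩ := D.flat x hx
  exact hF _ Fintype.card_pos F.torsion

end Pool.Agent.H11.Split
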