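import Pool.Agent.H11.Split

/-!
# Reduction to the irreducible factors: one class at a time

The form of `Data.semiample` which is used when only certain classes are known to be semiample on
the factors: it is enough that the restrictions of the given nef class are semiample.
-/

namespace Pool.Agent.H11.Split

/-- A nef class on `X` is semiample if its restrictions to the irreducible factors are. -/
theorem Data.semiample_of {P : Type} [AddCommGroup P] {I : Type} {Q : I → Type}
    [∀ i, AddCommGroup (Q i)] (D : Data P I Q) (x : P) (hx : D.nef x)
    (h : ∀ i, D.saY i (D.res i x)) : D.sa x := by
  refine D.descent x h ?_
  obtain ⟨F, hF⟩ := D.flat x hx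
  exact hF _ Fintype.card_pos F.torsion

end Pool.Agent.H11.Split
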